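import Pool.Agent.RBh.Spe

set_option autoImplicit false

/-!
# Signed Latin rectangles with `p` columns modulo `p`
-/

namespace Pool.Agent.RBh

open Equiv

/-- normalised count: column `0` is in the given order -/
def Dn {ν : Type} [DecidableEq ν] {m : ℕ} (k : ℕ) (g : Fin (m + 1) → Fin k → ν) : ℤ :=
  ∑ δ : Fin m → Perm (Fin k), (∏ x, (Perm.sign (δ x) : ℤ)) *
    ∏ i : Fin k, (if Function.Injective (Fin.cons (g 0 i) (fun x : Fin m => g x.succ (δ x i)) : Fin (m + 1) → ν)
      then (1 : ℤ) else 0)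

/-- [h5, size 2] `m + 1` even.  Proof: `δ = Fin.cons τ δ'` (`Fin.consEquiv` / `Fin.insertNthEquiv`), substitute `δ' x = δ'' x * τ`
(`Equiv.mulRight`), reindex the rows by `τ`: `sign τ ^ (m + 1) = 1`; the sum over `τ` gives `k!`. -/
theorem Dg_eq {ν : Type} [Fintype ν] [DecidableEq ν] {m : ℕ} (hm : Even (m + 1)) (k : ℕ) (g : Fin (m + 1) → Fin k → ν) :
    Dg k g = (k.factorial : ℤ) * Dn k g := by
  have h1 : ∀ (τ : Perm (Fin k)) (δ : Fin m → Perm (Fin k)),
      (∏ x, (Perm.sign ((Fin.cons τ (fun x => δ x * τ) : Fin (m + 1) → Perm (Fin k)) x) : ℤ)) *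
        ∏ i : Fin k, (if Function.Injective (fun x => g x ((Fin.cons τ (fun x => δ x * τ) :
          Fin (m + 1) → Perm (Fin k)) x i)) then (1 : ℤ) else 0) =
      (∏ x, (Perm.sign (δ x) : ℤ)) *
        ∏ i : Fin k, (if Function.Injective (Fin.cons (g 0 i) (fun x : Fin m => g x.succ (δ x i)) :
          Fin (m + 1) → ν) then (1 : ℤ) else 0) := by
    intro τ δ
    have h2 : (∏ x, (Perm.sign ((Fin.cons τ (fun x => δ x * τ) : Fin (m + 1) → Perm (Fin k)) x) : ℤ)) =
        ∏ x, (Perm.sign (δ x) : ℤ) := by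
      rw [Fin.prod_univ_succ]
      simp only [Fin.cons_zero, Fin.cons_succ, map_mul, Units.val_mul]
      rw [Finset.prod_mul_distrib, Finset.prod_const, Finset.card_univ, Fintype.card_fin,
        mul_left_comm, ← pow_succ']
      obtain ⟨r, hr⟩ := hm
      have h3 : (Perm.sign τ : ℤ) * (Perm.sign τ : ℤ) = 1 := by
        rw [← Units.val_mul, Int.units_mul_self, Units.val_one]
      rw [hr, ← two_mul, pow_mul, pow_two, h3, one_pow, mul_one]
    rw [h2]
    congr 1
    have h4 : ∀ i : Fin k, (fun x => g x ((Fin.cons τ (fun x => δ x * τ) :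
        Fin (m + 1) → Perm (Fin k)) x i)) =
        (Fin.cons (g 0 (τ i)) (fun x : Fin m => g x.succ (δ x (τ i))) : Fin (m + 1) → ν) := by
      intro i
      funext x
      refine Fin.cases ?_ (fun x => ?_) x
      · rfl
      · rfl
    simp only [h4]
    exact Equiv.prod_comp τ (fun i => (if Function.Injective (Fin.cons (g 0 i)
      (fun x : Fin m => g x.succ (δ x i)) : Fin (m + 1) → ν) then (1 : ℤ) else 0))
  have h5 : Dg k g = ∑ q : Perm (Fin k) × (Fin m → Perm (Fin k)),
      (∏ x, (Perm.sign ((Fin.cons q.1 (fun x => q.2 x * q.1) : Fin (m + 1) → Perm (Fin k)) x) : ℤ)) *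
        ∏ i : Fin k, (if Function.Injective (fun x => g x ((Fin.cons q.1 (fun x => q.2 x * q.1) :
          Fin (m + 1) → Perm (Fin k)) x i)) then (1 : ℤ) else 0) := by
    unfold Dg
    symm
    refine Fintype.sum_bijective (fun q : Perm (Fin k) × (Fin m → Perm (Fin k)) =>
      (Fin.cons q.1 (fun x => q.2 x * q.1) : Fin (m + 1) → Perm (Fin k))) ⟨?_, ?_⟩ _ _ fun _ => rfl
    · rintro ⟨τ, δ⟩ ⟨τ', δ'⟩ h
      have e1 : τ = τ' := congrFun h 0
      subst e1
      refine Prod.ext rfl ?_
      funext x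
      have e2 : δ x * τ = δ' x * τ := congrFun h x.succ
      exact mul_right_cancel e2
    · intro δ
      refine ⟨(δ 0, fun x => δ x.succ * (δ 0)⁻¹), ?_⟩
      funext x
      refine Fin.cases ?_ (fun x => ?_) x
      · rfl
      · show δ x.succ * (δ 0)⁻¹ * δ 0 = δ x.succ
        rw [inv_mul_cancel_right]
  rw [h5, Fintype.sum_prod_type, Finset.sum_congr rfl fun τ _ => Finset.sum_congr rfl fun δ _ => h1 τ δ]
  rw [Finset.sum_const, Finset.card_univ, Fintype.card_perm, Fintype.card_fin, nsmul_eq_mul]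
  rfl

/-- signed number of `m`-tuples of permutations of `α` which are pairwise discordant and have no fixed points -/
def cc (α : Type) [Fintype α] [DecidableEq α] (m : ℕ) : ℤ :=
  ∑ A : Fin m → Perm α, (∏ x, (Perm.sign (A x) : ℤ)) *
    ∏ a : α, (if Function.Injective (Fin.cons a (fun x : Fin m => A x a) : Fin (m + 1) → α) then (1 : ℤ) else 0)

/-- [h6, size 1] invariance (`Equiv.permCongr`, `Equiv.Perm.sign_permCongr`). -/
theorem cc_equiv {α β : Type} [Fintype α] [DecidableEq α] [Fintype β] [DecidableEq β] (e : α ≃ β) (m : ℕ) :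
    cc α m = cc β m := by
  unfold cc
  refine Fintype.sum_equiv (Equiv.piCongrRight fun _ : Fin m => e.permCongr) _ _ fun A => ?_
  congr 1
  · refine Finset.prod_congr rfl fun x _ => ?_
    show (Perm.sign (A x) : ℤ) = (Perm.sign (e.permCongr (A x)) : ℤ)
    rw [Equiv.Perm.sign_permCongr]
  · refine Fintype.prod_equiv e _ _ fun a => ?_
    refine if_congr ?_ rfl rfl
    have h1 : (Fin.cons (e a) (fun x : Fin m => (Equiv.piCongrRight (fun _ : Fin m => e.permCongr) A) x (e a)) :
        Fin (m + 1) → β) = e ∘ (Fin.cons a (fun x : Fin m => A x a) : Fin (m + 1) → α) := by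
      funext x
      refine Fin.cases ?_ (fun x => ?_) x
      · rfl
      · show e.permCongr (A x) (e a) = e (A x a)
        rw [Equiv.permCongr_apply, Equiv.symm_apply_apply]
    rw [h1]
    exact (e.injective.of_comp_iff _).symm

/-- the enumeration without the first row: column `0` misses `0`, column `x + 1` misses `b x` -/
def gb {m : ℕ} (k : ℕ) (b : Fin m → Fin (k + 1)) : Fin (m + 1) → Fin k → Fin (k + 1) :=
  Fin.cons (fun l => l.succ) (fun x l => swap 0 (b x) l.succ)

/-- [h7, size 3] EXPANSION ALONG THE ROW `0`.  Proof: `A x = Equiv.Perm.decomposeFin.symm (b x, δ x)`: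
`A x 0 = b x`, `A x i.succ = swap 0 (b x) (δ x i).succ` (`Equiv.Perm.decomposeFin_symm_apply_zero`, `_succ`),
`sign (A x) = ± sign (δ x)` (`Equiv.Perm.decomposeFin.symm_sign`); `Fin.prod_univ_succ` for the product over the rows. -/
theorem cc_laplace (k m : ℕ) :
    cc (Fin (k + 1)) m = ∑ b : Fin m → Fin (k + 1),
      ((∏ x, (if b x = 0 then (1 : ℤ) else -1)) *
        (if Function.Injective (Fin.cons 0 b : Fin (m + 1) → Fin (k + 1)) then (1 : ℤ) else 0)) * Dn k (gb k b) := by
  have h1 : cc (Fin (k + 1)) m = ∑ q : (Fin m → Fin (k + 1)) × (Fin m → Perm (Fin k)),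
      (∏ x, (Perm.sign (Equiv.Perm.decomposeFin.symm (q.1 x, q.2 x)) : ℤ)) *
        ∏ a : Fin (k + 1), (if Function.Injective (Fin.cons a (fun x : Fin m =>
          Equiv.Perm.decomposeFin.symm (q.1 x, q.2 x) a) : Fin (m + 1) → Fin (k + 1)) then (1 : ℤ) else 0) := by
    unfold cc
    symm
    refine Fintype.sum_bijective (fun q : (Fin m → Fin (k + 1)) × (Fin m → Perm (Fin k)) =>
      fun x => Equiv.Perm.decomposeFin.symm (q.1 x, q.2 x)) ⟨?_, ?_⟩ _ _ fun _ => rfl
    · rintro ⟨b, δ⟩ ⟨b', δ'⟩ h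
      have h2 : ∀ x, (b x, δ x) = (b' x, δ' x) := fun x =>
        Equiv.Perm.decomposeFin.symm.injective (congrFun h x)
      refine Prod.ext (funext fun x => ?_) (funext fun x => ?_)
      · exact congrArg Prod.fst (h2 x)
      · exact congrArg Prod.snd (h2 x)
    · intro A
      refine ⟨(fun x => (Equiv.Perm.decomposeFin (A x)).1, fun x => (Equiv.Perm.decomposeFin (A x)).2), ?_⟩
      funext x
      exact Equiv.symm_apply_apply _ _
  rw [h1, Fintype.sum_prod_type]
  refine Finset.sum_congr rfl fun b _ => ?_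
  unfold Dn
  rw [Finset.mul_sum]
  refine Finset.sum_congr rfl fun δ _ => ?_
  have h2 : (∏ x, (Perm.sign (Equiv.Perm.decomposeFin.symm (b x, δ x)) : ℤ)) =
      (∏ x, (if b x = 0 then (1 : ℤ) else -1)) * ∏ x, (Perm.sign (δ x) : ℤ) := by
    rw [← Finset.prod_mul_distrib]
    refine Finset.prod_congr rfl fun x _ => ?_
    rw [Equiv.Perm.decomposeFin.symm_sign, Units.val_mul]
    congr 1
    split_ifs <;> rfl
  have h3 : (∏ a : Fin (k + 1), (if Function.Injective (Fin.cons a (fun x : Fin m =>
      Equiv.Perm.decomposeFin.symm (b x, δ x) a) : Fin (m + 1) → Fin (k + 1)) then (1 : ℤ) else 0)) =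
      (if Function.Injective (Fin.cons 0 b : Fin (m + 1) → Fin (k + 1)) then (1 : ℤ) else 0) *
      ∏ i : Fin k, (if Function.Injective (Fin.cons (gb k b 0 i)
        (fun x : Fin m => gb k b x.succ (δ x i)) : Fin (m + 1) → Fin (k + 1)) then (1 : ℤ) else 0) := by
    rw [Fin.prod_univ_succ]
    congr 1
    · refine if_congr ?_ rfl rfl
      have h4 : (fun x : Fin m => Equiv.Perm.decomposeFin.symm (b x, δ x) 0) = b := by
        funext x
        exact Equiv.Perm.decomposeFin_symm_apply_zero _ _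
      rw [h4]
    · refine Finset.prod_congr rfl fun i _ => ?_
      refine if_congr ?_ rfl rfl
      have h4 : (fun x : Fin m => Equiv.Perm.decomposeFin.symm (b x, δ x) i.succ) =
          fun x : Fin m => gb k b x.succ (δ x i) := by
        funext x
        exact Equiv.Perm.decomposeFin_symm_apply_succ _ _ _
      rw [h4]
      rfl
  rw [h2, h3]
  ring

private theorem H8_card {X : Type} [Fintype X] [DecidableEq X] (p : ℕ) [Fact p.Prime] (φ : Perm X)
    (hφ : φ ^ p = 1) (F : X → ℤ) (hF : ∀ x, F (φ x) = F x) (v : ℤ) :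
    (((Finset.univ.filter (fun x => F x = v)).card : ℕ) : ZMod p) =
      (((Finset.univ.filter (fun x => φ x = x ∧ F x = v)).card : ℕ) : ZMod p) := by
  classical
  let g : Function.End {x // F x = v} := fun y => ⟨φ y.1, by rw [hF]; exact y.2⟩
  have hpow : ∀ n : ℕ, ∀ y : {x // F x = v}, ((g ^ n) y).1 = (φ ^ n) y.1 := by
    intro n
    induction n with
    | zero => intro y; rfl
    | succ n ih =>
      intro y
      rw [pow_succ, pow_succ]
      exact ih (g y)
  have hg : g ^ p ^ 1 = 1 := by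
    rw [pow_one]
    funext y
    apply Subtype.ext
    rw [hpow p y, hφ]
    rfl
  have h := Equiv.Perm.card_fixedPoints_modEq hg
  have h1 : Fintype.card {x // F x = v} = (Finset.univ.filter (fun x => F x = v)).card :=
    Fintype.card_subtype _
  have h2 : Fintype.card (Function.fixedPoints g) =
      (Finset.univ.filter (fun x => φ x = x ∧ F x = v)).card := by
    rw [← Fintype.card_subtype]
    apply Fintype.card_congr
    refine ⟨fun y => ⟨y.1.1, ?_, y.1.2⟩, fun z => ⟨⟨z.1, z.2.2⟩, ?_⟩, ?_, ?_⟩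
    · exact congrArg Subtype.val y.2
    · exact Subtype.ext z.2.1
    · intro y; rfl
    · intro z; rfl
  rw [h1, h2] at h
  exact (ZMod.natCast_eq_natCast_iff _ _ _).2 h

/-- [h8, size 2] INVARIANT SUMS MODULO `p`.  Proof: group by the values of `F` (`Finset.sum_fiberwise`-like, values in a finite set): on
`{x // F x = v}` the map `φ` is a permutation with `φ ^ p = 1`, `Equiv.Perm.card_fixedPoints_modEq`. -/
theorem sum_fixed {X : Type} [Fintype X] [DecidableEq X] (p : ℕ) [Fact p.Prime] (φ : Perm X) (hφ : φ ^ p = 1)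
    (F : X → ℤ) (hF : ∀ x, F (φ x) = F x) :
    ((∑ x, F x : ℤ) : ZMod p) = ((∑ x ∈ Finset.univ.filter (fun x => φ x = x), F x : ℤ) : ZMod p) := by
  classical
  have h1 : ∀ S : Finset X, ((∑ x ∈ S, F x : ℤ) : ZMod p) =
      ∑ v ∈ Finset.univ.image F, ((v : ℤ) : ZMod p) * (((S.filter (fun x => F x = v)).card : ℕ) : ZMod p) := by
    intro S
    rw [← Finset.sum_fiberwise_of_maps_to (s := S) (t := Finset.univ.image F) (g := F)
      (fun x _ => Finset.mem_image_of_mem F (Finset.mem_univ x))]
    rw [Int.cast_sum]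
    refine Finset.sum_congr rfl fun v _ => ?_
    rw [Finset.sum_congr rfl (fun x hx => (Finset.mem_filter.1 hx).2), Finset.sum_const]
    rw [nsmul_eq_mul, Int.cast_mul, Int.cast_natCast, mul_comm]
  rw [h1, h1]
  refine Finset.sum_congr rfl fun v _ => ?_
  rw [Finset.filter_filter, H8_card p φ hφ F hF v]

private theorem H9_ind {p m : ℕ} (a b : ZMod p) (c : Fin m → ZMod p) :
    Function.Injective (Fin.cons (b + a) (fun x => c x + a) : Fin (m + 1) → ZMod p) ↔
      Function.Injective (Fin.cons b c : Fin (m + 1) → ZMod p) := by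
  have h : (Fin.cons (b + a) (fun x => c x + a) : Fin (m + 1) → ZMod p) =
      (fun y => y + a) ∘ (Fin.cons b c : Fin (m + 1) → ZMod p) := by
    funext i
    refine Fin.cases ?_ (fun j => ?_) i
    · simp
    · simp
  rw [h]
  exact ⟨fun h1 => h1.of_comp, fun h1 => (add_left_injective a).comp h1⟩

private theorem H9_pow {p : ℕ} (c : ZMod p) (n : ℕ) : ∀ a, ((Equiv.addRight c) ^ n) a = a + n * c := by
  induction n with
  | zero => intro a; simp
  | succ n ih =>
    intro a
    rw [pow_succ, Equiv.Perm.mul_apply, ih]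
    simp only [Equiv.coe_addRight]
    push_cast
    ring

private theorem H9_pow_p {p : ℕ} (c : ZMod p) : (Equiv.addRight c) ^ p = 1 := by
  ext a
  rw [H9_pow]
  simp

private theorem H9_sign {p : ℕ} [Fact p.Prime] (hp : p ≠ 2) (c : ZMod p) :
    Perm.sign (Equiv.addRight c) = 1 := by
  have h1 : Perm.sign (Equiv.addRight c) ^ p = 1 := by
    rw [← map_pow, H9_pow_p, map_one]
  have h2 : Odd p := (Fact.out : p.Prime).odd_of_ne_two hp
  obtain ⟨k, hk⟩ := h2
  have h3 : Perm.sign (Equiv.addRight c) ^ (2 * k + 1) = 1 := by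
    rw [← hk]
    exact h1
  rw [pow_succ, pow_mul, Int.units_sq, one_pow, one_mul] at h3
  exact h3

private theorem H9_card (p : ℕ) [Fact p.Prime] (m : ℕ) :
    (Finset.univ.filter (fun c : Fin m → ZMod p =>
      Function.Injective (Fin.cons 0 c : Fin (m + 1) → ZMod p))).card = (p - 1).descFactorial m := by
  classical
  have h1 : Fintype.card {z : ZMod p // z ≠ 0} = p - 1 := by
    rw [Fintype.card_subtype_compl, ZMod.card, Fintype.card_subtype_eq]
  have h2 : Fintype.card (Fin m ↪ {z : ZMod p // z ≠ 0}) = (p - 1).descFactorial m := by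
    rw [Fintype.card_embedding_eq, h1, Fintype.card_fin]
  rw [← h2, ← Fintype.card_subtype]
  apply Fintype.card_congr
  refine ⟨fun c => ⟨fun x => ⟨c.1 x, ?_⟩, ?_⟩, fun e => ⟨fun x => (e x).1, ?_⟩, ?_, ?_⟩
  · intro h0
    exact ((Fin.cons_injective_iff).1 c.2).1 ⟨x, h0⟩
  · intro x y hxy
    exact ((Fin.cons_injective_iff).1 c.2).2 (congrArg Subtype.val hxy)
  · refine (Fin.cons_injective_iff).2 ⟨?_, ?_⟩
    · rintro ⟨x, hx⟩
      exact (e x).2 hx
    · intro x y hxy
      exact e.injective (Subtype.ext hxy)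
  · intro c; rfl
  · intro e; rfl

private theorem H9_fix {p : ℕ} [Fact p.Prime] (B : Perm (ZMod p))
    (h : (Equiv.addRight (1 : ZMod p))⁻¹ * B * Equiv.addRight (1 : ZMod p) = B) :
    B = Equiv.addRight (B 0) := by
  have h1 : ∀ a, B (a + 1) = B a + 1 := by
    intro a
    have h2 := congrArg (fun C : Perm (ZMod p) => (Equiv.addRight (1 : ZMod p)) (C a)) h
    have h3 : (Equiv.addRight (1 : ZMod p)) (((Equiv.addRight (1 : ZMod p))⁻¹ * B *
        Equiv.addRight (1 : ZMod p)) a) = B (a + 1) :=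
      Equiv.apply_symm_apply (Equiv.addRight (1 : ZMod p)) _
    exact h3.symm.trans h2
  have h3 : ∀ n : ℕ, B (n : ZMod p) = B 0 + n := by
    intro n
    induction n with
    | zero => simp
    | succ n ih => rw [Nat.cast_succ, h1, ih, add_assoc]
  ext a
  have h4 := h3 a.val
  rw [ZMod.natCast_zmod_val] at h4
  rw [h4, Equiv.coe_addRight, add_comm]

private theorem H9_comm {p : ℕ} (c : ZMod p) :
    (Equiv.addRight (1 : ZMod p))⁻¹ * Equiv.addRight c * Equiv.addRight (1 : ZMod p) = Equiv.addRight c := by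
  rw [mul_assoc, inv_mul_eq_iff_eq_mul]
  ext a
  simp only [Equiv.Perm.mul_apply, Equiv.coe_addRight]
  ring

private theorem H9_term {p : ℕ} [Fact p.Prime] (hp : p ≠ 2) (m : ℕ) (c : Fin m → ZMod p) :
    (∏ x, (Perm.sign (Equiv.addRight (c x)) : ℤ)) *
      ∏ a : ZMod p, (if Function.Injective (Fin.cons a (fun x : Fin m => (Equiv.addRight (c x)) a) :
        Fin (m + 1) → ZMod p) then (1 : ℤ) else 0) =
      if Function.Injective (Fin.cons 0 c : Fin (m + 1) → ZMod p) then (1 : ℤ) else 0 := by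
  have h1 : (∏ x, (Perm.sign (Equiv.addRight (c x)) : ℤ)) = 1 := by
    apply Finset.prod_eq_one
    intro x _
    rw [H9_sign hp]
    rfl
  have h2 : ∀ a : ZMod p, (if Function.Injective (Fin.cons a (fun x : Fin m => (Equiv.addRight (c x)) a) :
        Fin (m + 1) → ZMod p) then (1 : ℤ) else 0) =
      if Function.Injective (Fin.cons 0 c : Fin (m + 1) → ZMod p) then (1 : ℤ) else 0 := by
    intro a
    have h3 := H9_ind a 0 c
    rw [zero_add] at h3
    have h4 : (fun x : Fin m => (Equiv.addRight (c x)) a) = fun x => c x + a := by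
      funext x
      rw [Equiv.coe_addRight, add_comm]
    rw [h4]
    exact if_congr h3 rfl rfl
  rw [h1, one_mul, Finset.prod_congr rfl (fun a _ => h2 a), Finset.prod_const]
  split_ifs
  · exact one_pow _
  · rw [Finset.card_univ, ZMod.card]
    exact zero_pow (Fact.out : p.Prime).ne_zero

/-- [h9, size 3] THE COUNT MODULO `p`.  Proof: `φ A = fun x => σ⁻¹ * A x * σ`, `σ = Equiv.addRight 1` on `ZMod p`, `σ ^ p = 1`; the terms are invariant
(`Perm.sign` of a conjugate; reindex the product over `a` by `σ`; injectivity of `cons (a+1) _` shifted by one).  `sum_fixed`.  `φ A = A` iff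
every `A x` commutes with `σ` iff `A x a = a + c x`, `c x = A x 0`; `sign` of a translation is `1` (`p` odd: its `p`-th power is `1`); the condition is
`c x ≠ 0` and `c` injective (the same for all `a`); the number of such `c : Fin m → ZMod p` is `(p - 1).descFactorial m`
(`Fintype.card_embedding_eq` for `Fin m ↪ {c // c ≠ 0}`). -/
theorem cc_mod (p : ℕ) [Fact p.Prime] (hp : p ≠ 2) (m : ℕ) :
    ((cc (ZMod p) m : ℤ) : ZMod p) = (((p - 1).descFactorial m : ℕ) : ZMod p) := by
  classical
  let σ : Perm (ZMod p) := Equiv.addRight (1 : ZMod p)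
  let φ : Perm (Fin m → Perm (ZMod p)) :=
    { toFun := fun A x => σ⁻¹ * A x * σ
      invFun := fun A x => σ * A x * σ⁻¹
      left_inv := fun A => by funext x; group
      right_inv := fun A => by funext x; group }
  have hpow : ∀ n : ℕ, ∀ A : Fin m → Perm (ZMod p), ∀ x, (φ ^ n) A x = (σ ^ n)⁻¹ * A x * σ ^ n := by
    intro n
    induction n with
    | zero => intro A x; simp
    | succ n ih =>
      intro A x
      rw [pow_succ, Equiv.Perm.mul_apply, ih]
      show (σ ^ n)⁻¹ * (σ⁻¹ * A x * σ) * σ ^ n = (σ ^ (n + 1))⁻¹ * A x * σ ^ (n + 1)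
      rw [pow_succ']
      group
  have hφ : φ ^ p = 1 := by
    apply Equiv.ext
    intro A
    funext x
    rw [hpow, H9_pow_p]
    simp
  let F : (Fin m → Perm (ZMod p)) → ℤ := fun A => (∏ x, (Perm.sign (A x) : ℤ)) *
    ∏ a : ZMod p, (if Function.Injective (Fin.cons a (fun x : Fin m => A x a) : Fin (m + 1) → ZMod p)
      then (1 : ℤ) else 0)
  have hF : ∀ A, F (φ A) = F A := by
    intro A
    have h1 : (∏ x, (Perm.sign (φ A x) : ℤ)) = ∏ x, (Perm.sign (A x) : ℤ) := by
      refine Finset.prod_congr rfl fun x _ => ?_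
      have : Perm.sign (φ A x) = Perm.sign (A x) := by
        show Perm.sign (σ⁻¹ * A x * σ) = Perm.sign (A x)
        rw [Perm.sign_mul, Perm.sign_mul, Perm.sign_inv, mul_right_comm, Int.units_mul_self, one_mul]
      rw [this]
    have h2 : (∏ a : ZMod p, (if Function.Injective (Fin.cons a (fun x : Fin m => φ A x a) :
          Fin (m + 1) → ZMod p) then (1 : ℤ) else 0)) =
        ∏ a : ZMod p, (if Function.Injective (Fin.cons a (fun x : Fin m => A x a) :
          Fin (m + 1) → ZMod p) then (1 : ℤ) else 0) := by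
      rw [← Equiv.prod_comp σ (fun a : ZMod p => (if Function.Injective (Fin.cons a (fun x : Fin m => A x a) :
          Fin (m + 1) → ZMod p) then (1 : ℤ) else 0))]
      refine Finset.prod_congr rfl fun a _ => ?_
      have h3 := H9_ind (1 : ZMod p) a (fun x => φ A x a)
      have h4 : (fun x : Fin m => A x (σ a)) = fun x => φ A x a + 1 := by
        funext x
        show A x (σ a) = σ (σ⁻¹ (A x (σ a)))
        exact (Equiv.apply_symm_apply σ _).symm
      rw [h4]
      exact (if_congr h3 rfl rfl).symm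
    show (∏ x, (Perm.sign (φ A x) : ℤ)) * _ = _
    rw [h1, h2]
  have hmain := sum_fixed p φ hφ F hF
  have hcc : cc (ZMod p) m = ∑ A, F A := rfl
  rw [hcc, hmain]
  have hfix : (∑ A ∈ Finset.univ.filter (fun A => φ A = A), F A) =
      ∑ c : Fin m → ZMod p, if Function.Injective (Fin.cons 0 c : Fin (m + 1) → ZMod p) then (1 : ℤ) else 0 := by
    refine Finset.sum_bij' (fun A _ => fun x => A x 0) (fun c _ => fun x => Equiv.addRight (c x)) ?_ ?_ ?_ ?_ ?_
    · intro A _; exact Finset.mem_univ _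
    · intro c _
      refine Finset.mem_filter.2 ⟨Finset.mem_univ _, ?_⟩
      funext x
      exact H9_comm (c x)
    · intro A hA
      funext x
      exact (H9_fix (A x) (congrFun (Finset.mem_filter.1 hA).2 x)).symm
    · intro c _
      funext x
      simp
    · intro A hA
      have h5 : A = fun x => Equiv.addRight (A x 0) := by
        funext x
        exact H9_fix (A x) (congrFun (Finset.mem_filter.1 hA).2 x)
      have h6 := H9_term hp m (fun x => A x 0)
      rw [← h6]
      show (∏ x, (Perm.sign (A x) : ℤ)) * (∏ a : ZMod p, (if Function.Injective (Fin.cons a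
        (fun x : Fin m => A x a) : Fin (m + 1) → ZMod p) then (1 : ℤ) else 0)) = _
      have h7 : ∀ x, Equiv.addRight (A x 0) = A x := fun x => (congrFun h5 x).symm
      simp only [h7]
  rw [hfix, Finset.sum_boole, H9_card]
  push_cast
  rfl

/-- [h10, size 1] EXISTENCE.  `cc_mod`: `(p-1).descFactorial m ≠ 0` modulo `p` for `m ≤ p - 1` (a product of numbers in `[1, p-1]`);
`cc_equiv` (`ZMod p ≃ Fin (k + 1)`, `k + 1 = p`), `cc_laplace`: some `Dn k (gb k b) ≠ 0` modulo `p`; `Dg_eq`, `k! ≠ 0` modulo `p`.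
`gb k b x` is injective (`swap` and `Fin.succ` are). -/
theorem exists_g (p : ℕ) [Fact p.Prime] (hp : p ≠ 2) (m : ℕ) (hm : Even (m + 1)) (hmp : m + 1 ≤ p) :
    ∃ g : Fin (m + 1) → Fin (p - 1) → Fin p, (∀ x, Function.Injective (g x)) ∧ ((Dg (p - 1) g : ℤ) : ZMod p) ≠ 0 := by
  have hp0 : 0 < p := (Fact.out : p.Prime).pos
  have key : ∀ k : ℕ, k + 1 = p → ∃ g : Fin (m + 1) → Fin k → Fin (k + 1),
      (∀ x, Function.Injective (g x)) ∧ ((Dg k g : ℤ) : ZMod p) ≠ 0 := by
    intro k hk
    have h1 : ((cc (ZMod p) m : ℤ) : ZMod p) ≠ 0 := by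
      rw [cc_mod p hp m]
      intro h0
      rw [CharP.cast_eq_zero_iff (ZMod p) p] at h0
      have h2 : p ∣ (p - 1).factorial := by
        have := Nat.factorial_mul_descFactorial (show m ≤ p - 1 by omega)
        rw [← this]
        exact Dvd.dvd.mul_left h0 _
      rw [(Fact.out : p.Prime).dvd_factorial] at h2
      omega
    have e : ZMod p ≃ Fin (k + 1) := Fintype.equivFinOfCardEq (by rw [ZMod.card]; omega)
    rw [cc_equiv e m, cc_laplace] at h1
    push_cast at h1
    obtain ⟨b, -, hb⟩ := Finset.exists_ne_zero_of_sum_ne_zero h1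
    have hD : ((Dn k (gb k b) : ℤ) : ZMod p) ≠ 0 := right_ne_zero_of_mul hb
    refine ⟨gb k b, ?_, ?_⟩
    · intro x
      refine Fin.cases ?_ (fun y => ?_) x
      · exact Fin.succ_injective k
      · exact (swap 0 (b y)).injective.comp (Fin.succ_injective k)
    · rw [Dg_eq hm]
      push_cast
      refine mul_ne_zero ?_ hD
      intro h0
      rw [CharP.cast_eq_zero_iff (ZMod p) p, (Fact.out : p.Prime).dvd_factorial] at h0
      omega
  obtain ⟨k, rfl⟩ : ∃ k, p = k + 1 := ⟨p - 1, by omega⟩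
  exact key k rfl

end Pool.Agent.RBh
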