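import Pool.Agent.RBh.Cnt
import Pool.Agent.RB.Num

set_option autoImplicit false

namespace Pool.Agent.RBh

open Equiv Pool.Agent.RB

/-- [h11, size 1] the count does not change if the elements are embedded in a larger set. -/
theorem Dg_embed {ρ ν μ : Type} [Fintype ρ] [DecidableEq ρ] [Fintype ν] [DecidableEq ν] [Fintype μ] [DecidableEq μ]
    (e : ν ↪ μ) (k : ℕ) (g : ρ → Fin k → ν) : Dg k (fun x l => e (g x l)) = Dg k g := by
  unfold Dg
  refine Finset.sum_congr rfl fun δ _ => ?_
  congr 1
  refine Finset.prod_congr rfl fun i _ => ?_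
  refine if_congr ?_ rfl rfl
  exact e.injective.of_comp_iff (fun x => g x (δ x i))

/-- [h12, size 2] ONE BLOCK.  `r = m + 1` even, `r ≤ p - 1`, `k = p - 1`: `exists_g`, an embedding `Fin p ↪ Syh p (Fin r)` (`p ≤ p - 1 + r`), `Dg_embed`.
`m j = k - d j`, `d j ≤ r ≤ k`, `∑ d j = r * k` (double counting, `g x` injective), so `∑ m j = k (p - 1 + r) - r k = k (p - 1)`; `exists_Y`, `TT_mainh`,
`exists_of_TT`, `OkP_of`. -/
theorem OkP_even {p : ℕ} [Fact p.Prime] (hp : p ≠ 2) (m : ℕ) (hm : Even (m + 1)) (hmp : m + 1 ≤ p - 1) :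
    OkP p (p - 1) (p - 1 + (m + 1)) := by
  classical
  have hp3 : 3 ≤ p := by
    have := (Fact.out : p.Prime).two_le
    omega
  obtain ⟨g0, hg0, hD0⟩ := exists_g p hp m hm (by omega)
  have hcard : Fintype.card (Syh p (Fin (m + 1))) = p - 1 + (m + 1) := by
    simp [Syh, Fintype.card_sum]
  obtain ⟨e⟩ : Nonempty (Fin p ↪ Syh p (Fin (m + 1))) := by
    apply Function.Embedding.nonempty_of_card_le
    rw [hcard, Fintype.card_fin]
    omega
  set g : Fin (m + 1) → Fin (p - 1) → Syh p (Fin (m + 1)) := fun x l => e (g0 x l) with hgdef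
  have hg : ∀ x, Function.Injective (g x) := fun x => e.injective.comp (hg0 x)
  have hD : ((Dg (p - 1) g : ℤ) : ZMod p) ≠ 0 := by
    rw [hgdef, Dg_embed]
    exact hD0
  set d : Syh p (Fin (m + 1)) → ℕ := fun j => (Finset.univ.filter fun x => ∃ l, g x l = j).card with hddef
  have hdle : ∀ j, d j ≤ p - 1 := by
    intro j
    calc d j ≤ (Finset.univ : Finset (Fin (m + 1))).card := Finset.card_le_card (Finset.filter_subset _ _)
      _ = m + 1 := by simp
      _ ≤ p - 1 := hmp
  have hdsum : ∑ j, d j = (m + 1) * (p - 1) := by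
    simp only [hddef, Finset.card_filter]
    rw [Finset.sum_comm]
    have : ∀ x : Fin (m + 1), ∑ j, (if ∃ l, g x l = j then 1 else 0) = p - 1 := by
      intro x
      rw [← Finset.card_filter]
      have h1 : (Finset.univ.filter fun j => ∃ l, g x l = j) = Finset.univ.image (g x) := by
        ext j
        simp
      rw [h1, Finset.card_image_of_injective _ (hg x), Finset.card_univ, Fintype.card_fin]
    rw [Finset.sum_congr rfl (fun x _ => this x), Finset.sum_const, Finset.card_univ, Fintype.card_fin, smul_eq_mul]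
  have hmsum : ∑ j, (p - 1 - d j) = (p - 1) * (p - 1) := by
    have h1 : ∑ j, (p - 1 - d j) + ∑ j, d j = ∑ _j : Syh p (Fin (m + 1)), (p - 1) := by
      rw [← Finset.sum_add_distrib]
      exact Finset.sum_congr rfl fun j _ => Nat.sub_add_cancel (hdle j)
    rw [Finset.sum_const, Finset.card_univ, hcard, hdsum, smul_eq_mul] at h1
    have h2 : (p - 1 + (m + 1)) * (p - 1) = (p - 1) * (p - 1) + (m + 1) * (p - 1) := Nat.add_mul _ _ _
    rw [h2] at h1
    exact Nat.add_right_cancel h1
  obtain ⟨Y, hY⟩ := exists_Y p (p - 1) (fun j => p - 1 - d j) (fun j => Nat.sub_le _ _) hmsum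
  have hT : TT (p - 1) (Ysh g Y) ≠ 0 := by
    rw [TT_mainh hp g hg Y]
    exact mul_ne_zero hD (by convert hY)
  obtain ⟨f, hf⟩ := exists_of_TT hT
  exact OkP_of hcard f hf

/-- all even `n ≥ p - 1` -/
theorem OkP_all {p : ℕ} [Fact p.Prime] (hp : p ≠ 2) : ∀ n : ℕ, Even n → p - 1 ≤ n → OkP p (p - 1) n := by
  have hp3 : 3 ≤ p := by
    have := (Fact.out : p.Prime).two_le
    omega
  have hpe : Even (p - 1) := (Fact.out : p.Prime).even_sub_one hp
  have h0 : OkP p (p - 1) (p - 1) := by
    have := OkP_block hp (p - 1) 0 (by omega) (by omega) (by simp)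
    simpa using this
  intro n
  induction n using Nat.strong_induction_on with
  | _ n ih =>
    intro hn hpn
    rcases Nat.lt_or_ge n (2 * (p - 1)) with h | h
    · rcases Nat.eq_or_lt_of_le hpn with h1 | h1
      · rw [← h1]; exact h0
      · obtain ⟨m, hm⟩ : ∃ m, n = p - 1 + (m + 1) := ⟨n - (p - 1) - 1, by omega⟩
        have hme : Even (m + 1) := by
          rw [hm, Nat.even_add] at hn
          exact hn.mp hpe
        rw [hm]
        exact OkP_even hp m hme (by omega)
    · have h1 : Even (n - (p - 1)) := (Nat.even_sub (by omega)).mpr ⟨fun _ => hpe, fun _ => hn⟩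
      have h2 := ih (n - (p - 1)) (by omega) h1 (by omega)
      have h3 := OkP_add h2 h0
      rwa [Nat.sub_add_cancel (by omega)] at h3

end Pool.Agent.RBh
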