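import Pool.Agent.RB.Phi
import Pool.Agent.RB.Mul
import Pool.Agent.RB.Blk

set_option autoImplicit false

/-!
# The count modulo `p` for arbitrary special symbols
-/

namespace Pool.Agent.RBh

open Equiv Pool.Agent.RB

variable {ρ ν : Type} [Fintype ρ] [DecidableEq ρ] [Fintype ν] [DecidableEq ν]

/-- signed number of arrays with rows `i : Fin k` and columns `x : ρ`; column `x` is an arrangement of the `k` elements `g x l`, every row has
distinct entries -/
def Dg (k : ℕ) (g : ρ → Fin k → ν) : ℤ :=
  ∑ δ : ρ → Perm (Fin k), (∏ x, (Perm.sign (δ x) : ℤ)) *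
    ∏ i : Fin k, (if Function.Injective (fun x => g x (δ x i)) then (1 : ℤ) else 0)

/-- the set of symbols and columns: `p - 1` ordinary ones and the special ones -/
abbrev Syh (p : ℕ) (ρ : Type) : Type := Fin (p - 1) ⊕ ρ

/-- the matrices: `Y` for an ordinary symbol, the indicator of the enumeration `g x` for the special symbol `x` -/
def Ysh {p k : ℕ} (g : ρ → Fin k → Syh p ρ) (Y : Matrix (Syh p ρ) (Fin k) (ZMod p)) :
    Syh p ρ → Matrix (Syh p ρ) (Fin k) (ZMod p)
  | Sum.inl _ => Y
  | Sum.inr x => Matrix.of fun j l => if g x l = j then 1 else 0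

private theorem splh_sum_perm {α : Type} [Fintype α] [DecidableEq α] {k : ℕ} {R : Type} [CommRing R]
    (F : (Fin k → α → α) → R) :
    open Classical in
    ∑ a : Fin k → Perm α, F (fun i => a i) =
      ∑ A : Fin k → α → α, if ∀ i, Function.Injective (A i) then F A else 0 := by
  classical
  rw [← Finset.sum_filter]
  refine Finset.sum_bij (fun a _ => fun i => (a i : α → α)) ?_ ?_ ?_ ?_
  · intro a _
    exact Finset.mem_filter.mpr ⟨Finset.mem_univ _, fun i => (a i).injective⟩
  · intro a _ b _ h
    funext i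
    exact Equiv.ext (fun x => congr_fun (congr_fun h i) x)
  · intro A hA
    exact ⟨fun i => Equiv.ofBijective (A i)
      (Finite.injective_iff_bijective.mp ((Finset.mem_filter.mp hA).2 i)), Finset.mem_univ _, rfl⟩
  · intro a _
    rfl

private def splh_equiv (p k : ℕ) : (Fin k → Syh p ρ → Syh p ρ) ≃
    (Fin k → ρ → Syh p ρ) × (Fin (p - 1) → Fin k → Syh p ρ) where
  toFun A := (fun i x => A i (Sum.inr x), fun s i => A i (Sum.inl s))
  invFun B := fun i => Sum.elim (fun s => B.2 s i) (B.1 i)
  left_inv A := by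
    funext i s
    cases s <;> rfl
  right_inv B := rfl

private theorem splh_cond {p k : ℕ} (A : Fin k → Syh p ρ → Syh p ρ) :
    (∀ i, Function.Injective (A i)) ↔ ((∀ i, Function.Injective (fun x : ρ => A i (Sum.inr x))) ∧
      ∀ i, Function.Injective (fun s : Fin (p - 1) => A i (Sum.inl s)) ∧
        ∀ s : Fin (p - 1), ∀ x : ρ, A i (Sum.inr x) ≠ A i (Sum.inl s)) := by
  constructor
  · intro h
    refine ⟨fun i => (h i).comp Sum.inr_injective, fun i => ⟨(h i).comp Sum.inl_injective, ?_⟩⟩
    intro s x hx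
    exact Sum.inr_ne_inl (h i hx)
  · rintro ⟨h1, h2⟩ i
    have h3 : A i = Sum.elim (fun s : Fin (p - 1) => A i (Sum.inl s)) (fun x : ρ => A i (Sum.inr x)) := by
      funext s
      cases s <;> rfl
    rw [h3]
    exact (h2 i).1.sumElim (h1 i) (fun s x hx => (h2 i).2 s x hx.symm)

/-- [spl, size 3] split the permutations `a i` into their values on the pairs (`β i`) and on the ordinary symbols (`v`).
A pair (`β i` injective, `s ↦ v s i` injective into the complement of the image of `β i`) is the same as a permutation `a i`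
(`Sum.elim`, injective on a finite set). -/
theorem TT_splith {p k : ℕ} (g : ρ → Fin k → Syh p ρ) (Y : Matrix (Syh p ρ) (Fin k) (ZMod p)) :
    open Classical in
    TT k (Ysh g Y) = ∑ β : Fin k → ρ → Syh p ρ,
      if ∀ i, Function.Injective (β i) then
        (∏ x : ρ, Matrix.det (Matrix.of fun (i l : Fin k) => if g x l = β i x then (1 : ZMod p) else 0)) *
          PhiR p k Y (fun i => (Finset.univ.image (β i))ᶜ) else 0 := by
  classical
  let D : (Fin k → ρ → Syh p ρ) → ZMod p := fun β =>
    ∏ x : ρ, Matrix.det (Matrix.of fun (i l : Fin k) => if g x l = β i x then (1 : ZMod p) else 0)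
  let P : (Fin (p - 1) → Fin k → Syh p ρ) → ZMod p := fun v =>
    ∏ s, Matrix.det (Matrix.of fun (i l : Fin k) => Y (v s i) l)
  let F : (Fin k → Syh p ρ → Syh p ρ) → ZMod p := fun A =>
    D (fun i x => A i (Sum.inr x)) * P (fun s i => A i (Sum.inl s))
  have h1 : TT k (Ysh g Y) = ∑ a : Fin k → Perm (Syh p ρ), F (fun i => a i) := by
    unfold TT
    refine Finset.sum_congr rfl fun a _ => ?_
    rw [Fintype.prod_sum_type, mul_comm]
    rfl
  rw [h1, splh_sum_perm F]
  have h2 : (∑ A : Fin k → Syh p ρ → Syh p ρ, if ∀ i, Function.Injective (A i) then F A else 0) =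
      ∑ B : (Fin k → ρ → Syh p ρ) × (Fin (p - 1) → Fin k → Syh p ρ),
        if ((∀ i, Function.Injective (B.1 i)) ∧ ∀ i, Function.Injective (fun s => B.2 s i) ∧
          ∀ s x, B.1 i x ≠ B.2 s i) then D B.1 * P B.2 else 0 := by
    refine Fintype.sum_equiv (splh_equiv p k (ρ := ρ)) _ _ ?_
    intro A
    exact if_congr (splh_cond A) rfl rfl
  have h3 : (∑ A : Fin k → Syh p ρ → Syh p ρ, if ∀ i, Function.Injective (A i) then F A else 0) =
      ∑ β : Fin k → ρ → Syh p ρ, ∑ v : Fin (p - 1) → Fin k → Syh p ρ,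
        if ((∀ i, Function.Injective (β i)) ∧ ∀ i, Function.Injective (fun s => v s i) ∧
          ∀ s x, β i x ≠ v s i) then D β * P v else 0 := by
    rw [h2, Fintype.sum_prod_type]
  refine h3.trans (Finset.sum_congr rfl fun β _ => ?_)
  by_cases hβ : ∀ i, Function.Injective (β i)
  · rw [if_pos hβ]
    unfold PhiR
    rw [Finset.mul_sum]
    refine Finset.sum_congr rfl fun v _ => ?_
    have hc : (∀ i, Function.Injective (fun s => v s i) ∧ ∀ s, v s i ∈ (Finset.univ.image (β i))ᶜ) ↔
        (∀ i, Function.Injective (fun s => v s i) ∧ ∀ s x, β i x ≠ v s i) := by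
      simp only [Finset.mem_compl, Finset.mem_image, Finset.mem_univ, true_and, not_exists, ne_eq]
    by_cases hv : ∀ i, Function.Injective (fun s => v s i) ∧ ∀ s x, β i x ≠ v s i
    · rw [if_pos ⟨hβ, hv⟩, if_pos (hc.mpr hv)]
    · rw [if_neg (fun h => hv h.2), if_neg (fun h => hv (hc.mp h)), mul_zero]
  · rw [if_neg hβ]
    exact Finset.sum_eq_zero fun v _ => if_neg (fun h => hβ h.1)

private theorem h2_pb {ι R : Type} [Fintype ι] [CommRing R] (P : ι → Prop) [DecidablePred P]
    [Decidable (∀ i, P i)] : ∏ i, (if P i then (1 : R) else 0) = if ∀ i, P i then 1 else 0 := by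
  by_cases h : ∀ i, P i
  · rw [if_pos h]
    exact Finset.prod_eq_one fun i _ => if_pos (h i)
  · rw [if_neg h]
    push Not at h
    obtain ⟨i, hi⟩ := h
    exact Finset.prod_eq_zero (Finset.mem_univ i) (if_neg hi)

/-- [h2, size 1] expansion of the indicator determinants (`Matrix.det_apply'`, transposed; `Finset.prod_univ_sum`). -/
theorem ind_expand {p k : ℕ} (g : ρ → Fin k → ν) (β : Fin k → ρ → ν) :
    (∏ x : ρ, Matrix.det (Matrix.of fun (i l : Fin k) => if g x l = β i x then (1 : ZMod p) else 0)) =
      ∑ δ : ρ → Perm (Fin k), (∏ x, ((Perm.sign (δ x) : ℤ) : ZMod p)) *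
        (if (fun i x => g x (δ x i)) = β then 1 else 0) := by
  classical
  have h1 : ∀ x : ρ, Matrix.det (Matrix.of fun (i l : Fin k) => if g x l = β i x then (1 : ZMod p) else 0) =
      ∑ σ : Perm (Fin k), ((Perm.sign σ : ℤ) : ZMod p) *
        (if ∀ i, g x (σ i) = β i x then (1 : ZMod p) else 0) := by
    intro x
    rw [← Matrix.det_transpose, Matrix.det_apply']
    refine Finset.sum_congr rfl fun σ _ => ?_
    congr 1
    have h2 : ∀ i, (Matrix.of fun (i l : Fin k) => if g x l = β i x then (1 : ZMod p) else 0).transpose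
        (σ i) i = if g x (σ i) = β i x then (1 : ZMod p) else 0 := fun i => rfl
    rw [Finset.prod_congr rfl fun i _ => h2 i]
    exact h2_pb _
  rw [Finset.prod_congr rfl fun x _ => h1 x, Finset.prod_univ_sum, Fintype.piFinset_univ]
  refine Finset.sum_congr rfl fun δ _ => ?_
  rw [Finset.prod_mul_distrib]
  congr 1
  refine (h2_pb _).trans (if_congr ?_ rfl rfl)
  constructor
  · intro h
    funext i x
    exact h x i
  · intro h x i
    exact congrFun (congrFun h i) x

/-- [h3, size 2] every element `j` is used in exactly `d j` rows, `d j` the number of `x` with `j ∈ range (g x)`: for such an `x` there is exactly one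
row `i` with `g x (δ x i) = j` (`g x` injective), and different `x` give different rows (the rows have distinct entries).  So `j` is missing in
`k - d j` rows; `∏_i ∏_{j ∉ image} u j = ∏_j u j ^ #{i : j ∉ image}` (`Finset.prod_comm'`, `Finset.prod_const`). -/
theorem prod_complh {R : Type} [CommRing R] {k : ℕ} (g : ρ → Fin k → ν) (hg : ∀ x, Function.Injective (g x))
    (δ : ρ → Perm (Fin k)) (hδ : ∀ i, Function.Injective (fun x => g x (δ x i))) (u : ν → R) :
    open Classical in
    ∏ i : Fin k, ∏ j ∈ (Finset.univ.image (fun x => g x (δ x i)))ᶜ, u j =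
      ∏ j, u j ^ (k - (Finset.univ.filter fun x => ∃ l, g x l = j).card) := by
  classical
  have h1 : ∀ i : Fin k, ∏ j ∈ (Finset.univ.image (fun x => g x (δ x i)))ᶜ, u j =
      ∏ j, if j ∈ (Finset.univ.image (fun x => g x (δ x i)))ᶜ then u j else 1 := by
    intro i
    rw [Finset.prod_ite_mem, Finset.univ_inter]
  rw [Finset.prod_congr rfl fun i _ => h1 i, Finset.prod_comm]
  refine Finset.prod_congr rfl fun j _ => ?_
  rw [Finset.prod_ite, Finset.prod_const_one, mul_one, Finset.prod_const]
  congr 1
  have h2 : (Finset.univ.filter fun i : Fin k => j ∈ (Finset.univ.image (fun x => g x (δ x i)))ᶜ) =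
      (Finset.univ.filter fun i : Fin k => j ∈ Finset.univ.image (fun x => g x (δ x i)))ᶜ := by
    ext i
    simp only [Finset.mem_filter, Finset.mem_univ, true_and, Finset.mem_compl]
  rw [h2, Finset.card_compl, Fintype.card_fin]
  congr 1
  symm
  refine Finset.card_bij (fun x hx => (δ x).symm (Classical.choose (Finset.mem_filter.1 hx).2)) ?_ ?_ ?_
  · intro x hx
    have h3 := Classical.choose_spec (Finset.mem_filter.1 hx).2
    rw [Finset.mem_filter]
    refine ⟨Finset.mem_univ _, Finset.mem_image.2 ⟨x, Finset.mem_univ _, ?_⟩⟩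
    rw [Equiv.apply_symm_apply]
    exact h3
  · intro x hx y hy hxy
    have h3 := Classical.choose_spec (Finset.mem_filter.1 hx).2
    have h4 := Classical.choose_spec (Finset.mem_filter.1 hy).2
    have h5 : g x (δ x ((δ x).symm (Classical.choose (Finset.mem_filter.1 hx).2))) = j := by
      rw [Equiv.apply_symm_apply]
      exact h3
    have h6 : g y (δ y ((δ y).symm (Classical.choose (Finset.mem_filter.1 hy).2))) = j := by
      rw [Equiv.apply_symm_apply]
      exact h4
    have h7 : (δ x).symm (Classical.choose (Finset.mem_filter.1 hx).2) =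
      (δ y).symm (Classical.choose (Finset.mem_filter.1 hy).2) := hxy
    rw [← h7] at h6
    exact hδ _ (h5.trans h6.symm)
  · intro i hi
    obtain ⟨x, -, hx⟩ := Finset.mem_image.1 (Finset.mem_filter.1 hi).2
    have hx' : x ∈ Finset.univ.filter fun x => ∃ l, g x l = j :=
      Finset.mem_filter.2 ⟨Finset.mem_univ _, δ x i, hx⟩
    refine ⟨x, hx', ?_⟩
    have h3 := Classical.choose_spec (Finset.mem_filter.1 hx').2
    rw [Equiv.symm_apply_eq]
    exact hg x (h3.trans hx.symm)

/-- [h4, size 2] THE FORMULA.  `TT_splith`, `ind_expand`; exchange the sums, for `δ` only `β = fun i x => g x (δ x i)` remains; `phi_eq` (the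
complement of the image has `p - 1` elements) and `prod_complh` (`u j = ∑ l, Y j l * t l`). -/
theorem TT_mainh {p k : ℕ} [Fact p.Prime] (hp : p ≠ 2) (g : ρ → Fin k → Syh p ρ)
    (hg : ∀ x, Function.Injective (g x)) (Y : Matrix (Syh p ρ) (Fin k) (ZMod p)) :
    open Classical in
    TT k (Ysh g Y) = ((Dg k g : ℤ) : ZMod p) *
      ∑ t : Fin k → ZMod p, ∏ j, (∑ l, Y j l * t l) ^ (k - (Finset.univ.filter fun x => ∃ l, g x l = j).card) := by
  classical
  set Z : ZMod p := ∑ t : Fin k → ZMod p,
    ∏ j, (∑ l, Y j l * t l) ^ (k - (Finset.univ.filter fun x => ∃ l, g x l = j).card) with hZ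
  rw [TT_splith]
  have h1 : ∀ β : Fin k → ρ → Syh p ρ, (if ∀ i, Function.Injective (β i) then
        (∏ x : ρ, Matrix.det (Matrix.of fun (i l : Fin k) => if g x l = β i x then (1 : ZMod p) else 0)) *
          PhiR p k Y (fun i => (Finset.univ.image (β i))ᶜ) else 0) =
      ∑ δ : ρ → Perm (Fin k), (∏ x, ((Perm.sign (δ x) : ℤ) : ZMod p)) *
        (if (fun i x => g x (δ x i)) = β then (if ∀ i, Function.Injective (β i) then
          PhiR p k Y (fun i => (Finset.univ.image (β i))ᶜ) else 0) else 0) := by
    intro β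
    by_cases hβ : ∀ i, Function.Injective (β i)
    · rw [if_pos hβ, ind_expand, Finset.sum_mul]
      refine Finset.sum_congr rfl fun δ _ => ?_
      rw [if_pos hβ, mul_assoc, ite_mul, one_mul, zero_mul]
    · rw [if_neg hβ]
      refine (Finset.sum_eq_zero fun δ _ => ?_).symm
      rw [if_neg hβ]
      simp
  rw [Finset.sum_congr rfl (fun β _ => h1 β), Finset.sum_comm]
  unfold Dg
  push_cast
  rw [Finset.sum_mul]
  refine Finset.sum_congr rfl fun δ _ => ?_
  rw [← Finset.mul_sum, Finset.sum_ite_eq, if_pos (Finset.mem_univ _), mul_assoc]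
  congr 1
  by_cases hδ : ∀ i, Function.Injective (fun x => g x (δ x i))
  · rw [if_pos hδ]
    have h2 : ∏ i : Fin k, (if Function.Injective (fun x => g x (δ x i)) then (1 : ZMod p) else 0) = 1 :=
      Finset.prod_eq_one fun i _ => if_pos (hδ i)
    rw [h2, one_mul, phi_eq p hp k Y]
    · rw [hZ]
      refine Finset.sum_congr rfl fun t _ => ?_
      convert prod_complh g hg δ hδ (fun j => ∑ l, Y j l * t l) using 3
    · intro i
      rw [Finset.card_compl, Finset.card_image_of_injective _ (hδ i), Finset.card_univ, Fintype.card_sum, Fintype.card_fin]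
      omega
  · rw [if_neg hδ]
    push Not at hδ
    obtain ⟨i, hi⟩ := hδ
    rw [Finset.prod_eq_zero (Finset.mem_univ i) (if_neg hi), zero_mul]

end Pool.Agent.RBh
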